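import Pool.Agent.Helper26.AV.CLCore
import Pool.Agent.Helper2.AV.TDefs
import Pool.Agent.Helper2.AV.MB
import Pool.Agent.Helper55.AV.DAb
import Pool.Agent.Helper42.AV.RD2
import Pool.Agent.Helper31.AV.TY
import Pool.Agent.Helper9.AV.SO4

/-!
The classification of a block.
-/

set_option linter.unusedSimpArgs false
set_option linter.unusedSectionVars false
set_option linter.unusedVariables false

open Module

attribute [local instance 100] LieRing.ofAssociativeRing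

namespace AV

open MTP UN

namespace CL

section orth

variable {K : Type*} [Field K] [IsAlgClosed K] [CharZero K] {W : Type*} [AddCommGroup W]
  [Module K W] [FiniteDimensional K W] {L : Submodule K (Module.End K W)}
  {b : LinearMap.BilinForm K W}

/-- Orthogonal blocks. -/
theorem core_O (hL : IrrSymp b L) (hnd : b.Nondegenerate) (hsy : ∀ v w, b v w = b w v)
    (hsimple : LieAlgebra.IsSimple K (toLie L hL.br)) (hsmp : Smp L)
    {P : Module.End K W} (hP : P * P = P)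
    (hc : P - (2 : K)⁻¹ • 1 ∈ L) {N : Module.End K W} (hN : N ∈ L) (hNN : N * N = 0)
    (hN0 : N ≠ 0) :
    Exc (finrank K W) (min (rk P) (finrank K W - rk P)) (rk N) ∨
      ((∀ z, IsSk b z → z ∈ L) ∧ Even (finrank K W) ∧
        (finrank K W = 6 ∨ 10 ≤ finrank K W)) := by
  have hpq := rk_half hP (trace_eq_zero_of_sk hnd (hL.sk _ hc))
  obtain ⟨hs, hss⟩ := involution hP hc
  rcases OR.orth_class (L := toLie L hL.br) hL hnd hsy hsimple hs hss hN hNN hN0 with
    h | ⟨m, -, hm, hD, hr⟩ | ⟨n, -, hn, hD, hr⟩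
  · have hLb : L = skw b := le_antisymm (fun z hz => hL.sk z hz) h
    have h2 := MTP.MF.rk_le_half hNN
    have h3 : 0 < rk N := rk_pos.mpr hN0
    have hev := rk_even hnd hsy (hL.sk N hN)
    by_cases hd : finrank K W = 6 ∨ 10 ≤ finrank K W
    · exact Or.inr ⟨h, ⟨rk P, by omega⟩, hd⟩
    · push Not at hd
      obtain ⟨j, hj⟩ := hev
      have hdim : finrank K W = 4 ∨ finrank K W = 8 := by omega
      rcases hdim with hd4 | hd8
      · exfalso
        obtain ⟨M, hM, hMi, hM0, hM1⟩ := so_four hnd hsy hd4 hP (hL.sk _ hc)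
        rw [← hLb] at hM hMi hM1
        rcases hsmp M hM hMi with h4 | h4
        · exact hM0 h4
        · exact hM1 h4
      · left
        exact exc_spin (n := 3) (le_refl _) hpq (by rw [hd8]; norm_num) (by
          have : rk N = 2 ∨ rk N = 4 := by omega
          rcases this with h4 | h4
          · left; rw [h4]; norm_num
          · right; rw [h4]; norm_num)
  · exact Or.inl (exc_mid (by omega) hpq hD hr)
  · exact Or.inl (exc_spin hn hpq hD hr)

end orth

variable {K : Type*} [Field K] [CharZero K] {V : Type*} [AddCommGroup V]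
  [Module K V] [FiniteDimensional K V] {W : Type*} [AddCommGroup W] [Module K W]
  [FiniteDimensional K W] {B L : Submodule K (Module.End K V)}
  {ρ : Module.End K V →ₗ[K] Module.End K W}

lemma tr_zero (R : Rs B ρ) {x : Module.End K V} (hx : x ∈ B)
    (ht : LinearMap.trace K V x = 0) : LinearMap.trace K W (ρ x) = 0 := by
  obtain ⟨k, hk, h1, -⟩ := R.mult
  have h2 := h1 x hx
  rw [ht] at h2
  rcases mul_eq_zero.mp h2.symm with h3 | h3
  · exact absurd (Nat.cast_eq_zero.mp h3) hk.ne'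
  · exact h3

lemma map_br (R : Rs B ρ) (hLB : L ≤ B) (hbr : ∀ x ∈ L, ∀ y ∈ L, x * y - y * x ∈ L) :
    ∀ x ∈ L.map ρ, ∀ y ∈ L.map ρ, x * y - y * x ∈ L.map ρ := by
  rintro _ ⟨x, hx, rfl⟩ _ ⟨y, hy, rfl⟩
  refine ⟨x * y - y * x, hbr x hx y hy, ?_⟩
  rw [map_sub, R.hom x (hLB hx) y (hLB hy), R.hom y (hLB hy) x (hLB hx)]

lemma map_smp (R : Rs B ρ) (hLB : L ≤ B) (hbr : ∀ x ∈ L, ∀ y ∈ L, x * y - y * x ∈ L)
    (hs : Smp L) : Smp (L.map ρ) := by
  intro M hM hMi
  rcases hs (L ⊓ M.comap ρ) inf_le_left (by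
    rintro x hx y ⟨hy, hyM⟩
    refine ⟨hbr x hx y hy, ?_⟩
    rw [SetLike.mem_coe, Submodule.mem_comap, map_sub, R.hom x (hLB hx) y (hLB hy),
      R.hom y (hLB hy) x (hLB hx)]
    exact hMi _ ⟨x, hx, rfl⟩ _ hyM) with h | h
  · left
    rw [eq_bot_iff]
    intro z hz
    obtain ⟨y, hy, rfl⟩ := hM hz
    have h1 : y ∈ L ⊓ M.comap ρ := ⟨hy, hz⟩
    rw [h, Submodule.mem_bot] at h1
    rw [h1, map_zero]
    exact zero_mem _
  · right
    apply le_antisymm hM
    rintro _ ⟨y, hy, rfl⟩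
    rw [← h] at hy
    exact hy.2

lemma mem_of_map (R : Rs B ρ) (hLB : L ≤ B) {x : Module.End K V} (hx : x ∈ B)
    (h : ρ x ∈ L.map ρ) : x ∈ L := by
  obtain ⟨y, hy, hyx⟩ := h
  have h1 : y - x = 0 := R.inj _ (sub_mem (hLB hy) hx) (by rw [map_sub, hyx, sub_self])
  rw [← sub_eq_zero.mp h1]
  exact hy

end CL

variable {K : Type*} [Field K] {V : Type*} [AddCommGroup V]
  [Module K V] [FiniteDimensional K V]

variable [IsAlgClosed K] [CharZero K]
  {ω : LinearMap.BilinForm K V} {G : Set (Module.End K V)}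
  {T : Set (Module.End K V ≃+* Module.End K V)} {p0 ε : Module.End K V} {W : Submodule K V}

/-- The operators of the Lie algebra in a self dual block are skew. -/
lemma MStr.lb_sk (D : MStr ω G T p0) (hε : Bl (AA G T p0) ε) (hsd : SD ω ε)
    {x : Module.End K V} (hx : x ∈ Lb G T p0 ε) : IsSk ω x := by
  obtain ⟨y, hy, rfl⟩ := hx
  intro v w
  have h1 := D.ml_sk hy
  have h2 : ε (y w) = y (ε w) := LinearMap.congr_fun (hε.cen y (D.ml_mem hy)) w
  change ω (y (ε v)) w = - ω v (y (ε w))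
  rw [h1, hsd, h2]

/-- In a self dual block the scalar of `lb_p` is one half. -/
lemma MStr.lb_half (D : MStr ω G T p0) (hε : Bl (AA G T p0) ε) (hsd : SD ω ε)
    (hns : ∀ p ∈ SC G T p0, p * ε ≠ 0 ∧ p * ε ≠ ε) {p : Module.End K V}
    (hp : p ∈ SC G T p0) : (p - (2 : K)⁻¹ • 1) * ε ∈ Lb G T p0 ε := by
  obtain ⟨c, hc⟩ := D.lb_p hε hp
  have hpA := D.sc_mem hp
  have hadj : IsAdj ω p (1 - p) := by
    rcases D.c2 hp with h | h | h
    · exact h
    · exact absurd (by rw [h, zero_mul]) (hns p hp).1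
    · exact absurd (by rw [h, one_mul]) (hns p hp).2
  have hsk := D.lb_sk hε hsd hc
  by_cases h2 : 1 - 2 * c = 0
  · have h3 : c = (2 : K)⁻¹ := by
      field_simp
      linear_combination -h2
    rw [← h3]; exact hc
  · exfalso
    apply hε.ne
    ext w
    rw [LinearMap.zero_apply]
    apply D.nd.2
    intro v
    have e1 : ω (p (ε v) - c • ε v) w = - ω v (p (ε w) - c • ε w) := hsk v w
    have e2 : ω (p (ε v)) w = ω (ε v) (w - p w) := hadj (ε v) w
    have e3 : ω (ε v) (w - p w) = ω v (ε (w - p w)) := hsd v (w - p w)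
    have e4 : ω (ε v) w = ω v (ε w) := hsd v w
    have e5 : ε (p w) = p (ε w) := LinearMap.congr_fun (hε.cen p hpA) w
    rw [e3, map_sub, map_sub, e5] at e2
    rw [map_sub, map_sub, map_smul, map_smul, LinearMap.sub_apply, LinearMap.smul_apply, e2, e4,
      smul_eq_mul] at e1
    have e6 : (1 - 2 * c) * ω v (ε w) = 0 := by linear_combination e1
    exact (mul_eq_zero.mp e6).resolve_left h2

/-- CL -/
theorem MStr.classify (D : MStr ω G T p0) (hε : Bl (AA G T p0) ε)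
    (hW : Irr (AA G T p0 : Set (Module.End K V)) W) (hWε : InB ε W)
    (hns : ∀ p ∈ SC G T p0, p * ε ≠ 0 ∧ p * ε ≠ ε) (hs : Smp (Lb G T p0 ε))
    {N : Module.End K V} (hN : N ∈ Lb G T p0 ε) (hNN : N * N = 0) (hN0 : N ≠ 0)
    {p : Module.End K V} (hp : p ∈ SC G T p0) :
    Exc (finrank K W) (min (MTP.rk (Rw W p)) (finrank K W - MTP.rk (Rw W p)))
      (MTP.rk (Rw W N)) ∨
    (FullB ω G T p0 ε ∧ (TyU ω ε W ∨ TyS ω (AA G T p0) ε W ∨ TyO ω (AA G T p0) ε W)) := by
  have R := D.ssA.rs hε hW hWε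
  have hLB := D.lb_le hε
  have hbr : ∀ x ∈ Lb G T p0 ε, ∀ y ∈ Lb G T p0 ε, x * y - y * x ∈ Lb G T p0 ε :=
    fun x hx y hy => D.lb_br hε hx hy
  have hirr := D.irr_lb hε hW hWε
  have htr : ∀ x ∈ Lb G T p0 ε, LinearMap.trace K V x = 0 := fun x hx => D.lb_tr hε hx
  have hWnt : Nontrivial W := (Submodule.nontrivial_iff_ne_bot).mpr hW.ne
  have h' := CL.map_br R hLB hbr
  have hsimple := R.simple hLB hbr hirr htr hs hN hN0 h'
  have hirr' : ∀ U : Submodule K W, (∀ z ∈ (Lb G T p0 ε).map (Rw W), ∀ w ∈ U, z w ∈ U) →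
      U = ⊥ ∨ U = ⊤ := fun U hU => hirr U fun x hx w hw => hU _ ⟨x, hx, rfl⟩ w hw
  have htr' : ∀ z ∈ (Lb G T p0 ε).map (Rw W), LinearMap.trace K W z = 0 := by
    rintro _ ⟨x, hx, rfl⟩
    exact CL.tr_zero R (hLB hx) (htr x hx)
  have hρε : ∀ x : Module.End K V, Rw W (x * ε) = Rw W x := by
    intro x
    ext w
    change ((prj W (x (ε w)) : W) : V) = prj W (x w)
    rw [hWε w w.2]
  have hAe : ∀ x ∈ AA G T p0, x * ε ∈ Ae (AA G T p0) ε := fun x hx =>
    ⟨mul_mem hx hε.mem, by rw [mul_assoc, hε.idem]⟩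
  have hρ1 : Rw W (1 : Module.End K V) = 1 := by
    ext w
    change ((prj W (w : V) : W) : V) = w
    rw [prj_coe]
  have hpA := D.sc_mem hp
  have hpe := hAe p hpA
  have hP : Rw W p * Rw W p = Rw W p := by
    have h1 : p * ε * (p * ε) = p * ε := by
      rw [mul_assoc p ε, ← mul_assoc ε p ε, hε.cen p hpA, mul_assoc p ε ε, hε.idem, ← mul_assoc,
        D.c1 hp]
    rw [← hρε p, ← R.hom _ hpe _ hpe, h1]
  have h0 : Rw W p ≠ 0 := by
    intro h
    exact (hns p hp).1 (R.inj _ hpe (by rw [hρε, h]))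
  have h1 : Rw W p ≠ 1 := by
    intro h
    have h2 : p * ε - 1 * ε = 0 := R.inj _ (sub_mem hpe (hAe 1 (one_mem _)))
      (by rw [map_sub, hρε, hρε, h, hρ1, sub_self])
    exact (hns p hp).2 (by rw [sub_eq_zero.mp h2, one_mul])
  have hc' : ∀ c : K, (p - c • 1) * ε ∈ Lb G T p0 ε →
      Rw W p - c • 1 ∈ (Lb G T p0 ε).map (Rw W) := by
    intro c hc
    refine ⟨_, hc, ?_⟩
    rw [hρε, map_sub, map_smul, hρ1]
  have hN' : Rw W N ∈ (Lb G T p0 ε).map (Rw W) := ⟨N, hN, rfl⟩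
  have hNN' : Rw W N * Rw W N = 0 := by
    rw [← R.hom _ (hLB hN) _ (hLB hN), hNN, map_zero]
  have hN0' : Rw W N ≠ 0 := fun h => hN0 (R.inj _ (hLB hN) h)
  by_cases hsd : SD ω ε
  · obtain ⟨b, hF, hsa⟩ := D.sd_form hε hsd hW hWε
    have hIS : IrrSymp b ((Lb G T p0 ε).map (Rw W)) := by
      refine ⟨h', ?_, hirr'⟩
      rintro _ ⟨x, hx, rfl⟩
      exact (hF.sk x (hLB hx).1 (hLB hx).2).1 (D.lb_sk hε hsd hx)
    have hc := hc' _ (D.lb_half hε hsd hns hp)
    have hfull : (∀ z, IsSk b z → z ∈ (Lb G T p0 ε).map (Rw W)) → FullB ω G T p0 ε := by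
      intro hf x hx hxe ht hsk
      exact CL.mem_of_map R hLB ⟨hx, hxe⟩ (hf _ ((hF.sk x hx hxe).1 (hsk hsd)))
    rcases hsa with hsy | halt
    · rcases CL.core_O hIS hF.nd hsy hsimple (CL.map_smp R hLB hbr hs) hP hc hN' hNN' hN0' with
        h | ⟨h, hev, hd⟩
      · exact Or.inl h
      · exact Or.inr ⟨hfull h, Or.inr (Or.inr ⟨hsd, hev, hd, b, hF, hsy⟩)⟩
    · rcases CL.core_S hIS hF.nd halt hsimple hP hc hN' hNN' hN0' with h | h
      · exact Or.inl h
      · exact Or.inr ⟨hfull h, Or.inr (Or.inl ⟨hsd, b, hF, halt⟩)⟩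
  · obtain ⟨c, hc⟩ := D.lb_p hε hp
    rcases CL.core_U h' hirr' htr' hsimple (fun b hb => D.nsd_form hε hsd hns hW hWε b
      fun x hx => hb _ ⟨x, hx, rfl⟩) hP h0 h1 (hc' c hc) hN' hNN' hN0' with h | ⟨h, hd⟩
    · exact Or.inl h
    · refine Or.inr ⟨?_, Or.inl ⟨hsd, hd⟩⟩
      intro x hx hxe ht hsk
      exact CL.mem_of_map R hLB ⟨hx, hxe⟩ (h _ (CL.tr_zero R ⟨hx, hxe⟩ ht))

end AV
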