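import Pool.Agent.Helper2.AV.ADefs

/-!
The exceptional triples: numerical comparisons.
-/

namespace AV.CL

open AV

lemma exc_wedge {n k D p r : ℕ} (hk : 2 ≤ k) (hkn : k + 2 ≤ n) (hne : n ≠ 2 * k)
    (hD : D = n.choose k) (hp : p = (n - 1).choose k) (hr : r = (n - 2).choose (k - 1)) :
    Exc D (min p (D - p)) r := by
  left
  obtain ⟨j, rfl⟩ : ∃ j, k = j + 1 := ⟨k - 1, by omega⟩
  obtain ⟨m, rfl⟩ : ∃ m, n = m + 1 := ⟨n - 1, by omega⟩
  have e1 : m + 1 - 1 = m := by omega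
  have e2 : j + 1 - 1 = j := by omega
  have e3 : m + 1 - 2 = m - 1 := by omega
  rw [e1] at hp
  rw [e2, e3] at hr
  have hsub : D - p = m.choose j := by
    rw [hD, hp, Nat.choose_succ_succ']; omega
  rcases Nat.lt_or_ge (2 * (j + 1)) (m + 1) with h | h
  · refine ⟨m + 1, j + 1, by omega, hk, by omega, hD, ?_, by rw [e3, e2, hr]⟩
    rw [hsub, e1, e2, hp]
    apply min_eq_right
    have h1 := Nat.choose_le_succ_of_lt_half_left (r := j) (n := m) (by omega)
    exact h1
  · have h' : m + 1 < 2 * (j + 1) := by omega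
    refine ⟨m + 1, m - j, by omega, by omega, by omega, ?_, ?_, ?_⟩
    · rw [hD, ← Nat.choose_symm (by omega : j + 1 ≤ m + 1)]
      congr 1; omega
    · rw [hsub, e1, hp]
      have h2 : m - j - 1 = m - (j + 1) := by omega
      rw [h2, Nat.choose_symm (by omega : j + 1 ≤ m)]
      apply min_eq_left
      have h3 := Nat.choose_le_succ_of_lt_half_left (r := m - (j + 1)) (n := m) (by omega)
      rw [Nat.choose_symm (by omega : j + 1 ≤ m)] at h3
      have h4 : m - (j + 1) + 1 = m - j := by omega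
      rw [h4, Nat.choose_symm (by omega : j ≤ m)] at h3
      exact h3
    · rw [hr, e3]
      have h2 : m - j - 1 = (m - 1) - j := by omega
      rw [h2, Nat.choose_symm (by omega : j ≤ m - 1)]

lemma two_mul_choose {m : ℕ} (hm : 1 ≤ m) :
    2 * (2 * m - 1).choose (m - 1) = (2 * m).choose m := by
  obtain ⟨k, rfl⟩ : ∃ k, m = k + 1 := ⟨m - 1, by omega⟩
  have e1 : 2 * (k + 1) - 1 = 2 * k + 1 := by omega
  have e2 : k + 1 - 1 = k := by omega
  have e3 : 2 * (k + 1) = 2 * k + 1 + 1 := by ring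
  rw [e1, e2, e3, Nat.choose_succ_succ']
  have h1 : (2 * k + 1).choose (k + 1) = (2 * k + 1).choose k := by
    rw [← Nat.choose_symm (by omega : k + 1 ≤ 2 * k + 1)]
    congr 1; omega
  rw [h1]; ring

lemma exc_mid {m D p r : ℕ} (hm : 3 ≤ m) (hp : 2 * p = D)
    (hD : D = (2 * m).choose m) (hr : r = (2 * m - 2).choose (m - 1)) :
    Exc D (min p (D - p)) r := by
  left
  refine ⟨2 * m, m, by omega, by omega, le_refl _, hD, ?_, hr⟩
  have h1 := two_mul_choose (m := m) (by omega)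
  omega

lemma exc_spin {n D p r : ℕ} (hn : 3 ≤ n) (hp : 2 * p = D) (hD : D = 2 ^ n)
    (hr : r = 2 ^ (n - 2) ∨ r = 2 ^ (n - 1)) : Exc D (min p (D - p)) r := by
  right
  have e1 : n + 1 - 1 = n := by omega
  have e2 : n + 1 - 2 = n - 1 := by omega
  have e3 : n + 1 - 3 = n - 2 := by omega
  refine ⟨n + 1, by omega, by rw [e1, hD], ?_, by rw [e2, e3]; exact hr⟩
  rw [e2]
  obtain ⟨k, rfl⟩ : ∃ k, n = k + 1 := ⟨n - 1, by omega⟩
  rw [pow_succ] at hD
  have e4 : k + 1 - 1 = k := by omega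
  rw [e4]
  omega

end AV.CL
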