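import Pool.Agent.Helper2.AV.PDefs
import Pool.Agent.Helper88.OR.OC
import Pool.Agent.Helper45.UN.LE3
import Pool.Agent.Helper88.UN.LM
import Pool.Agent.Helper21.TR.Simple
import Pool.Agent.Helper93.SR.Strong
import Pool.Agent.Helper26.AV.CLNum

/-!
The classification of a block: operators on the irreducible representation.
-/

set_option linter.unusedSimpArgs false
set_option linter.unusedSectionVars false
set_option linter.unusedVariables false

open Module

attribute [local instance 100] LieRing.ofAssociativeRing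

namespace AV.CL

open MTP AV

variable {K : Type*} [Field K] [IsAlgClosed K] [CharZero K] {W : Type*} [AddCommGroup W]
  [Module K W] [FiniteDimensional K W]

/-- The determinant form of a plane. -/
lemma det_form (hd : finrank K W = 2) : ∃ b : LinearMap.BilinForm K W, b ≠ 0 ∧
    ∀ z : Module.End K W, LinearMap.trace K W z = 0 → IsSk b z := by
  let e : Basis (Fin 2) K W := finBasisOfFinrankEq K W hd
  let b : LinearMap.BilinForm K W := LinearMap.mk₂ K
    (fun v w => e.repr v 0 * e.repr w 1 - e.repr v 1 * e.repr w 0)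
    (by intro v v' w; simp only [map_add, Finsupp.add_apply]; ring)
    (by intro c v w; simp only [map_smul, Finsupp.smul_apply, smul_eq_mul]; ring)
    (by intro v w w'; simp only [map_add, Finsupp.add_apply]; ring)
    (by intro c v w; simp only [map_smul, Finsupp.smul_apply, smul_eq_mul]; ring)
  have hb : ∀ v w, b v w = e.repr v 0 * e.repr w 1 - e.repr v 1 * e.repr w 0 := fun v w => rfl
  refine ⟨b, ?_, ?_⟩
  · intro h
    have h1 := hb (e 0) (e 1)
    rw [h] at h1
    simp at h1
  · intro z hz v w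
    rw [LinearMap.trace_eq_matrix_trace K e z, Matrix.trace_fin_two] at hz
    have hrep : ∀ (u : W) (i : Fin 2), e.repr (z u) i =
        LinearMap.toMatrix e e z i 0 * e.repr u 0 + LinearMap.toMatrix e e z i 1 * e.repr u 1 := by
      intro u i
      rw [← LinearMap.toMatrix_mulVec_repr e e z u]
      simp [Matrix.mulVec, dotProduct, Fin.sum_univ_two]
    rw [hb, hb, hrep, hrep, hrep, hrep]
    linear_combination (e.repr v 0 * e.repr w 1 - e.repr v 1 * e.repr w 0) * hz

lemma rk_half {P : Module.End K W} (hP : P * P = P)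
    (ht : LinearMap.trace K W (P - (2 : K)⁻¹ • 1) = 0) : 2 * rk P = finrank K W := by
  rw [map_sub, map_smul, LinearMap.trace_one, UN.trace_idem hP, smul_eq_mul, sub_eq_zero] at ht
  have h2 : (2 : K) * (rk P : K) = (finrank K W : K) := by
    rw [ht, ← mul_assoc, mul_inv_cancel₀ two_ne_zero, one_mul]
  exact_mod_cast h2

variable {L : Submodule K (Module.End K W)} {b : LinearMap.BilinForm K W}

/-- Unitary blocks. -/
theorem core_U (h' : ∀ x ∈ L, ∀ y ∈ L, x * y - y * x ∈ L)
    (hirr : ∀ U : Submodule K W, (∀ z ∈ L, ∀ w ∈ U, z w ∈ U) → U = ⊥ ∨ U = ⊤)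
    (htr : ∀ z ∈ L, LinearMap.trace K W z = 0) (hsimple : LieAlgebra.IsSimple K (toLie L h'))
    (hform : ∀ b : LinearMap.BilinForm K W, (∀ z ∈ L, IsSk b z) → b = 0)
    {P : Module.End K W} (hP : P * P = P) (h0 : P ≠ 0) (h1 : P ≠ 1) {c : K}
    (hc : P - c • 1 ∈ L) {N : Module.End K W} (hN : N ∈ L) (hNN : N * N = 0) (hN0 : N ≠ 0) :
    Exc (finrank K W) (min (rk P) (finrank K W - rk P)) (rk N) ∨
      ((∀ z, LinearMap.trace K W z = 0 → z ∈ L) ∧ 3 ≤ finrank K W) := by
  have hmem : ∀ z, z ∈ toLie L h' ↔ z ∈ L := fun z => Iff.rfl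
  have hfull : (∀ z, LinearMap.trace K W z = 0 → z ∈ L) →
      ((∀ z, LinearMap.trace K W z = 0 → z ∈ L) ∧ 3 ≤ finrank K W) := by
    intro hf
    refine ⟨hf, ?_⟩
    by_contra hcon
    have h2 := MTP.MF.rk_le_half hNN
    have h3 : 0 < rk N := rk_pos.mpr hN0
    obtain ⟨b, hb, hb'⟩ := det_form (K := K) (W := W) (by omega)
    exact hb (hform b fun z hz => hb' z (htr z hz))
  by_cases hpq : 2 * rk P = finrank K W
  · rcases UN.lie_half (L := toLie L h') hirr htr hsimple
      (fun b hb => hform b fun z hz u v => hb z hz u v) hP h0 h1 hc hpq hN hNN hN0 with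
      h | ⟨n, -, hn5, hD, hp, hr⟩
    · exact Or.inr (hfull h)
    · left
      have e1 : n - 1 - 2 = n - 3 := by omega
      have e2 : n - 1 - 1 = n - 2 := by omega
      exact exc_spin (n := n - 1) (by omega) hpq hD (by rw [e1, e2]; exact hr)
  · rcases UN.lie_main (L := toLie L h') hirr htr hsimple hP h0 h1 hc hpq hN hNN hN0 with
      h | ⟨n, k, hk, hkn, hne, hD, hp, hr⟩
    · exact Or.inr (hfull h)
    · exact Or.inl (exc_wedge hk hkn hne hD hp hr)

lemma involution {P : Module.End K W} (hP : P * P = P) (hc : P - (2 : K)⁻¹ • 1 ∈ L) :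
    (2 : K) • P - 1 ∈ L ∧ ((2 : K) • P - 1) * ((2 : K) • P - 1) = 1 := by
  constructor
  · have h := L.smul_mem (2 : K) hc
    rwa [smul_sub, smul_smul, mul_inv_cancel₀ two_ne_zero, one_smul] at h
  · have e : ((2 : K) • P - 1) * ((2 : K) • P - 1) =
        (4 : K) • (P * P) - (4 : K) • P + 1 := by
      rw [sub_mul, mul_sub, smul_mul_assoc, mul_smul_comm, mul_one, one_mul, smul_smul]
      norm_num
      module
    rw [e, hP]; simp

/-- Symplectic blocks. -/
theorem core_S (hL : IrrSymp b L) (hnd : b.Nondegenerate) (halt : b.IsAlt)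
    (hsimple : LieAlgebra.IsSimple K (toLie L hL.br))
    {P : Module.End K W} (hP : P * P = P)
    (hc : P - (2 : K)⁻¹ • 1 ∈ L) {N : Module.End K W} (hN : N ∈ L) (hNN : N * N = 0)
    (hN0 : N ≠ 0) :
    Exc (finrank K W) (min (rk P) (finrank K W - rk P)) (rk N) ∨ ∀ z, IsSk b z → z ∈ L := by
  have hW : Nontrivial W := by
    by_contra hcon
    rw [not_nontrivial_iff_subsingleton] at hcon
    exact hN0 (Subsingleton.elim _ _)
  have hpq := rk_half hP (trace_eq_zero_of_sk hnd (hL.sk _ hc))
  obtain ⟨hs, hss⟩ := involution hP hc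
  have hs0 : (2 : K) • P - 1 ≠ 0 := by
    intro h
    rw [h, mul_zero] at hss
    exact zero_ne_one hss
  rcases TR.simple_class (L := toLie L hL.br)
    (OR.ctx_of_inv (L := toLie L hL.br) hL hnd hsimple hs hss hs0) halt hsimple hN hNN hN0 with
    h | ⟨m, -, hm, hD, hr⟩ | ⟨n, -, hn, hD, hr⟩
  · exact Or.inr h
  · exact Or.inl (exc_mid hm hpq hD hr)
  · exact Or.inl (exc_spin (by omega) hpq hD hr)

end AV.CL
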